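import Pool.Agent.H22.AN.Defs

/-! The Hessian bound in all dimensions (MP_2697e3_an): definitions and target statements of part C of the
board allh: from the local inequality to the theorem. The dimension is `n = d + 2`, `d ≥ 1`. -/

namespace Pool.Agent.H22.AN

open MeasureTheory Metric Set Filter Topology Pool.Agent.H87.SN Pool.Agent.H87.SH Pool.Agent.H87.AX
open scoped ContDiff RealInnerProductSpace ENNReal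

noncomputable section

/-! ### Definitions -/

/-- The right side of the recursion at the cell `(x, sj j)`, with a weight `w`. -/
def Rw {d m : ℕ} (G : V d → V d →L[ℝ] E m) (e η : ℝ) (b r : ℕ) (w : V d → ℝ≥0∞) (x : V d)
    (j : ℕ) : ℝ≥0∞ :=
  ENNReal.ofReal η * (
    ENNReal.ofReal ((sj (j + b + r) ^ 2)⁻¹) *
      (∫⁻ y in {y : V d | y ∈ ball x (sj (j + r)) ∧ e ≤ th G y (sj (j + b + r))},
        w y * bs G y (sj (j + b + r))) +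
    ENNReal.ofReal ((sj (j + r) ^ 2)⁻¹) *
      (∫⁻ y in {y : V d | y ∈ ball x (sj (j + r)) ∧ e ≤ th G y (sj (j + r))},
        w y * bs G y (sj (j + r))) +
    ENNReal.ofReal (sj r ^ d * (sj j ^ 2)⁻¹) *
      (∫⁻ y in {y : V d | y ∈ ball x (sj j / 16) ∧ e ≤ th G y (sj (j + 3))},
        w y * bs G y (sj (j + 3))))

/-- The recursion: `e` is the threshold of the cells, `e₀` a lower threshold, `er` the regularity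
threshold; the scales are `sj j` (frame), `sj (j + r)`, `sj (j + a + r)`, `sj (j + b + r)`. -/
def RecP {d m : ℕ} (G : V d → V d →L[ℝ] E m) (er e e₀ η : ℝ) (a b r K : ℕ) (ν : ℝ) : Prop :=
  ∀ (x : V d) (j : ℕ), ball x (4 * sj j) ⊆ ball 0 2 → Wc G K x (sj j) < ENNReal.ofReal ν →
    ENNReal.ofReal ((sj (j + a + r) ^ 2)⁻¹) *
      (∫⁻ y in {y : V d | y ∈ ball x (sj (j + r) / 256) ∧ e₀ ≤ th G y (sj (j + a + r))},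
        bs G y (sj (j + a + r))) ≤ Rw G e η b r (fun _ => 1) x j ∧
    ENNReal.ofReal ((sj (j + a + r) ^ 2)⁻¹) *
      (∫⁻ y in {y : V d | y ∈ ball x (sj (j + r) / 256) ∧ e₀ ≤ th G y (sj (j + a + r)) ∧
          th G y (sj (j + a + r) / 8) < 2 * er},
        ENNReal.ofReal (Real.sqrt (th G y (sj (j + a + r) / 128)))) ≤
      Rw G e η b r (fun _ => 1) x j

/-- The weighted sum over the cells of scale `sj i`. -/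
def Kw {d m : ℕ} (G : V d → V d →L[ℝ] E m) (e : ℝ) (w : V d → ℝ≥0∞) (i : ℕ) : ℝ≥0∞ :=
  ENNReal.ofReal ((sj i ^ 2)⁻¹) * ∫⁻ x in {x : V d | x ∈ ball 0 (7 / 4) ∧ e ≤ th G x (sj i)},
    w x * bs G x (sj i)

/-- The sum over the cells of scale `sj i`, with the weight `(3/2 - ‖x‖)₊`. -/
def Hj {d m : ℕ} (G : V d → V d →L[ℝ] E m) (e : ℝ) (i : ℕ) : ℝ≥0∞ :=
  Kw G e (fun x => ENNReal.ofReal (3 / 2 - ‖x‖)) i

/-- The sum of the square roots of the densities, over the cells which are regular at the scale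
`sj i / 8`. -/
def Jj {d m : ℕ} (G : V d → V d →L[ℝ] E m) (er e₀ : ℝ) (i : ℕ) : ℝ≥0∞ :=
  ENNReal.ofReal ((sj i ^ 2)⁻¹) * ∫⁻ x in {x : V d | x ∈ ball 0 (9 / 8) ∧ e₀ ≤ th G x (sj i) ∧
    th G x (sj i / 8) < 2 * er}, ENNReal.ofReal (Real.sqrt (th G x (sj i / 128)))

/-- The cells of scale `sj j` which are not pinched. -/
def bad {d m : ℕ} (G : V d → V d →L[ℝ] E m) (K : ℕ) (ν : ℝ) (j : ℕ) : ℝ≥0∞ :=
  ENNReal.ofReal ((sj j ^ 2)⁻¹) *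
    volume {x : V d | x ∈ ball 0 (7 / 4) ∧ ENNReal.ofReal ν ≤ Wc G K x (sj j)}

/-! ### The recursion -/

/-- The recursion holds. -/
def T_REC : Prop := ∀ (d m : ℕ) (L Λ ε er e e₀ η : ℝ), 1 ≤ d → 0 ≤ L → 0 < Λ → 0 < ε → 0 < er →
    EP d m L Λ ε er → 0 < e → e ≤ 2 * er → 0 < e₀ → 0 < η →
    ∃ (a b r K : ℕ) (ν : ℝ), 4 ≤ a ∧ a < b ∧ 8 ≤ r ∧ 0 < ν ∧
    ∀ (U : Set (V d)) (u : V d → E m) (G : V d → V d →L[ℝ] E m), SM d m L Λ ε U u G →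
    RecP G er e e₀ η a b r K ν

/-- The cells which are not pinched. -/
def T_PKW : Prop := ∀ (d : ℕ) (Λ ν : ℝ) (K : ℕ), 1 ≤ d → 0 ≤ Λ → 0 < ν → ∃ C : ℝ, 0 ≤ C ∧
    ∀ (m : ℕ) (G : V d → V d →L[ℝ] E m), GD Λ G → ∀ J : ℕ,
    ∑ j ∈ Finset.Icc 4 J, bad G K ν j ≤ ENNReal.ofReal C

/-- Trivial bound at one scale. -/
def T_HTR : Prop := ∀ (d : ℕ) (Λ e : ℝ), 1 ≤ d → 0 < e → ∃ C : ℝ, 0 ≤ C ∧
    ∀ (m : ℕ) (G : V d → V d →L[ℝ] E m), GD Λ G → ∀ i : ℕ, 6 ≤ i →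
    Kw G e (fun _ => 1) i ≤ ENNReal.ofReal C ∧ Hj G e i ≤ ENNReal.ofReal C

/-! ### Integration over the cells -/

/-- Theorem of Tonelli for cells. -/
def T_TOG : Prop := ∀ (d : ℕ) (A S : Set (V d)) (ρ : ℝ) (f : V d → ℝ≥0∞), MeasurableSet A →
    MeasurableSet S → Measurable f →
    Measurable (fun x : V d => ∫⁻ y in S ∩ ball x ρ, f y) ∧
    ∫⁻ x in A, ∫⁻ y in S ∩ ball x ρ, f y = ∫⁻ y in S, volume (A ∩ ball y ρ) * f y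

/-- The non pinched cells are separated from the left side. -/
def T_AB1 : Prop := ∀ (d : ℕ) (Λ e₀ : ℝ), 1 ≤ d → 0 < e₀ → ∃ C : ℝ, 0 ≤ C ∧
    ∀ (m : ℕ) (G : V d → V d →L[ℝ] E m), GD Λ G → ∀ (a r K j : ℕ) (ν F : ℝ), 4 ≤ a → 8 ≤ r →
    4 ≤ j → 0 ≤ F → ∀ (f R : V d → ℝ≥0∞) (S : Set (V d)), Measurable f → Measurable R →
    MeasurableSet S → S ⊆ ball 0 (3 / 2) → (∀ y ∈ S, e₀ ≤ th G y (sj (j + a + r))) →
    (∀ y ∈ S, f y ≤ ENNReal.ofReal F) →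
    (∀ x ∈ ball (0 : V d) (25 / 16), Wc G K x (sj j) < ENNReal.ofReal ν →
      ENNReal.ofReal ((sj (j + a + r) ^ 2)⁻¹) * (∫⁻ y in S ∩ ball x (sj (j + r) / 256), f y) ≤
        R x) →
    ENNReal.ofReal ((sj (j + a + r) ^ 2)⁻¹) * (∫⁻ y in S, f y) ≤
      ENNReal.ofReal (C * F * 4 ^ r) * bad G K ν j +
      ENNReal.ofReal (C * (sj (j + r) ^ (d + 2))⁻¹) *
        (∫⁻ x in {x : V d | x ∈ ball 0 (25 / 16) ∧ e₀ / 4 ^ d ≤ th G x (sj (j + r))}, R x)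

/-- Integration of the right side. -/
def T_AB2 : Prop := ∀ (d : ℕ) (Λ e e₁ : ℝ), 1 ≤ d → 0 < e → 0 < e₁ → ∃ C : ℝ, 0 ≤ C ∧
    ∀ (m : ℕ) (G : V d → V d →L[ℝ] E m), GD Λ G → ∀ (b r j : ℕ) (η : ℝ) (w : V d → ℝ≥0∞),
    8 ≤ r → 4 ≤ j → 0 ≤ η → Measurable w → Measurable (fun x => Rw G e η b r w x j) ∧
    ENNReal.ofReal ((sj (j + r) ^ (d + 2))⁻¹) *
      (∫⁻ x in {x : V d | x ∈ ball 0 (25 / 16) ∧ e₁ ≤ th G x (sj (j + r))},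
        Rw G e η b r w x j) ≤
      ENNReal.ofReal (C * η) * (Kw G e w (j + b + r) + Kw G e w (j + r) + Kw G e w (j + 3))

/-- The absorption, with weights. -/
def T_ABS : Prop := ∀ (d : ℕ) (Λ e e₀ : ℝ), 1 ≤ d → 0 < e → 0 < e₀ → ∃ C : ℝ, 0 ≤ C ∧
    ∀ (m : ℕ) (G : V d → V d →L[ℝ] E m), GD Λ G → ∀ (a b r K j : ℕ) (ν η F : ℝ), 4 ≤ a → 8 ≤ r →
    4 ≤ j → 0 ≤ η → 0 ≤ F → ∀ (f wl wr : V d → ℝ≥0∞) (S : Set (V d)), Measurable f →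
    Measurable wl → Measurable wr → MeasurableSet S → S ⊆ ball 0 (3 / 2) →
    (∀ y ∈ S, e₀ ≤ th G y (sj (j + a + r))) → (∀ y ∈ S, wl y * f y ≤ ENNReal.ofReal F) →
    (∀ y ∈ S, ∀ z, dist y z < sj j / 8 → wl y ≤ wr z) →
    (∀ x ∈ ball (0 : V d) (25 / 16), Wc G K x (sj j) < ENNReal.ofReal ν →
      ENNReal.ofReal ((sj (j + a + r) ^ 2)⁻¹) * (∫⁻ y in S ∩ ball x (sj (j + r) / 256), f y) ≤
        Rw G e η b r (fun _ => 1) x j) →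
    ENNReal.ofReal ((sj (j + a + r) ^ 2)⁻¹) * (∫⁻ y in S, wl y * f y) ≤
      ENNReal.ofReal (C * F * 4 ^ r) * bad G K ν j +
      ENNReal.ofReal (C * η) * (Kw G e wr (j + b + r) + Kw G e wr (j + r) + Kw G e wr (j + 3))

/-- One step of the absorption for the beta numbers. -/
def T_HST : Prop := ∀ (d : ℕ) (Λ e : ℝ), 1 ≤ d → 0 < e → ∃ C : ℝ, 0 ≤ C ∧
    ∀ (m : ℕ) (G : V d → V d →L[ℝ] E m), GD Λ G → ∀ (er e₀ η ν : ℝ) (a b r K : ℕ), e₀ ≤ e →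
    0 ≤ η → 4 ≤ a → 8 ≤ r → RecP G er e e₀ η a b r K ν → ∀ j : ℕ, 4 ≤ j →
    Hj G e (j + a + r) ≤ ENNReal.ofReal (C * 4 ^ r) * bad G K ν j +
      ENNReal.ofReal (C * η) * (Hj G e (j + b + r) + Hj G e (j + r) + Hj G e (j + 3)) +
      ENNReal.ofReal (C * η * (1 / 2) ^ j)

/-- The same for the densities of the cells which are regular at the next scale. -/
def T_JST : Prop := ∀ (d : ℕ) (Λ e e₀ : ℝ), 1 ≤ d → 0 < e → 0 < e₀ → ∃ C : ℝ, 0 ≤ C ∧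
    ∀ (m : ℕ) (G : V d → V d →L[ℝ] E m), GD Λ G → ∀ (er η ν : ℝ) (a b r K : ℕ),
    0 ≤ η → 4 ≤ a → 8 ≤ r → RecP G er e e₀ η a b r K ν → ∀ j : ℕ, 4 ≤ j →
    Jj G er e₀ (j + a + r) ≤ ENNReal.ofReal (C * 4 ^ r) * bad G K ν j +
      ENNReal.ofReal (C * η) * (Hj G e (j + b + r) + Hj G e (j + r) + Hj G e (j + 3))

/-- A lemma on sequences. -/
def T_SQ3 : Prop := ∀ (H β : ℕ → ℝ≥0∞) (a b r : ℕ) (B B₁ : ℝ), 0 ≤ B → 0 ≤ B₁ → 1 ≤ a → a < b →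
    3 ≤ r → (∀ i, 6 ≤ i → H i ≤ ENNReal.ofReal B) →
    (∀ J : ℕ, ∑ j ∈ Finset.Icc 4 J, β j ≤ ENNReal.ofReal B₁) →
    (∀ j, 4 ≤ j → H (j + a + r) ≤ β j + ENNReal.ofReal (1 / 8) *
      (H (j + b + r) + H (j + r) + H (j + 3)) + ENNReal.ofReal (B * (1 / 2) ^ j)) →
    ∀ N : ℕ, ∑ i ∈ Finset.Icc 6 N, H i ≤ ENNReal.ofReal (2 * B₁ + 2 * (a + b + r + 1) * B)

/-- The sum over all cells is bounded. -/
def T_SUM : Prop := ∀ (d m : ℕ) (L Λ ε er : ℝ), 1 ≤ d → 0 ≤ L → 0 < Λ → 0 < ε → 0 < er →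
    EP d m L Λ ε er → ∃ (η ν B : ℝ) (a b r K : ℕ), 0 ≤ η ∧ 0 < ν ∧ 0 ≤ B ∧ 4 ≤ a ∧ a < b ∧
    8 ≤ r ∧ ∀ (U : Set (V d)) (u : V d → E m) (G : V d → V d →L[ℝ] E m), SM d m L Λ ε U u G →
    RecP G er (er / 2 ^ d) (er / 4 ^ d) η a b r K ν ∧
    ∀ N : ℕ, ∑ i ∈ Finset.Icc 6 N, Hj G (er / 2 ^ d) i ≤ ENNReal.ofReal B

/-! ### The Hessian -/

/-- The Hessian on the points which are regular at the scale `sj (i+1)` but not at the scale `sj i`. -/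
def T_HSJ : Prop := ∀ (d m : ℕ) (L Λ ε er : ℝ), 1 ≤ d → 0 ≤ L → 0 < er → EP d m L Λ ε er →
    ∃ C : ℝ, 0 ≤ C ∧
    ∀ (U : Set (V d)) (u : V d → E m) (G : V d → V d →L[ℝ] E m), SM d m L Λ ε U u G →
    ∀ i : ℕ, 5 ≤ i →
    hInt u {x : V d | x ∈ ball 0 1 ∧ er / 2 ^ d ≤ th G x (sj (i + 1)) ∧
      th G x (sj (i + 2)) < er / 2 ^ d} ≤ ENNReal.ofReal C * Jj G er (er / 4 ^ d) i

/-- The Hessian on the points which are regular at a fixed scale. -/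
def T_HS0 : Prop := ∀ (d m : ℕ) (L Λ ε er : ℝ) (i : ℕ), 1 ≤ d → 0 ≤ L → 0 ≤ Λ → 0 < er →
    EP d m L Λ ε er → 4 ≤ i → ∃ C : ℝ, 0 ≤ C ∧
    ∀ (U : Set (V d)) (u : V d → E m) (G : V d → V d →L[ℝ] E m), SM d m L Λ ε U u G →
    hInt u {x : V d | x ∈ ball 0 1 ∧ th G x (sj i) < er / 2 ^ d} ≤ ENNReal.ofReal C

/-- The Hessian bound. -/
def T_HSN : Prop := ∀ (d m : ℕ) (L Λ ε er : ℝ), 1 ≤ d → 0 ≤ L → 0 < Λ → 0 < ε → 0 < er →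
    EP d m L Λ ε er → ∃ B : ℝ, 0 ≤ B ∧
    ∀ (U : Set (V d)) (u : V d → E m) (G : V d → V d →L[ℝ] E m), SM d m L Λ ε U u G →
    hInt u (ball 0 1) ≤ ENNReal.ofReal B

/-! ### From stationary harmonic maps -/

/-- Zoomed stationary harmonic maps. -/
def T_SMI : Prop := ∀ (d m : ℕ) (N : Set (E m)) (A : E m → E m →L[ℝ] E m →L[ℝ] E m), 1 ≤ d →
    IsCompact N → IsSFF N A → ∃ L : ℝ, 0 ≤ L ∧ ∀ (ε C : ℝ), 0 < ε → 0 ≤ C →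
    ∀ (U : Set (V d)) (u : V d → E m) (G : V d → V d →L[ℝ] E m), StationaryHarmonic N A u G →
    IsOpen U → U ⊆ ball 0 2 → ContDiffOn ℝ ∞ u U →
    (∀ x ∈ ball (0 : V d) 2, x ∉ U → ∀ r : ℝ, 0 < r → ball x r ⊆ ball 0 2 →
      ε * r ^ d ≤ ∫ y in ball x r, nsq (G y)) →
    ∫ x in ball (0 : V d) 2, nsq (G x) ≤ C → ∀ c ∈ closedBall (0 : V d) 1,
    SM d m L (2 ^ d * C + 1) ε (ball 0 2 ∩ zm c (1 / 8) (LinearIsometryEquiv.refl ℝ (V d)) ⁻¹' U)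
      (fun y => u (zm c (1 / 8) (LinearIsometryEquiv.refl ℝ (V d)) y))
      (zG c (1 / 8) (LinearIsometryEquiv.refl ℝ (V d)) G) ∧
    hInt u (ball c (1 / 8) ∩ U) ≤
      hInt (fun y => u (zm c (1 / 8) (LinearIsometryEquiv.refl ℝ (V d)) y)) (ball 0 1)

/-- Cutoffs of arbitrary sets. -/
def T_CTF : Prop := ∀ d : ℕ, ∃ C : ℝ, 0 ≤ C ∧ ∀ (F : Set (V d)) (s : ℝ), 0 < s → ∃ χ : V d → ℝ,
    ContDiff ℝ ∞ χ ∧ (∀ x, 0 ≤ χ x ∧ χ x ≤ 1) ∧ (∀ x, (∃ y ∈ F, dist x y < s) → χ x = 0) ∧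
    (∀ x, (∀ y ∈ F, 3 * s ≤ dist x y) → χ x = 1) ∧ (∀ x, ‖fderiv ℝ χ x‖ ≤ C / s)

/-- The classical Hessian on the regular set is the distributional one. -/
def T_DSH : Prop := ∀ (d m : ℕ) (U : Set (V d)) (u : V d → E m) (G : V d → V d →L[ℝ] E m) (ε : ℝ),
    1 ≤ d → 0 < ε → MemLp G 2 (volume.restrict (ball (0 : V d) 2)) → IsOpen U → U ⊆ ball 0 2 →
    ContDiffOn ℝ ∞ u U → (∀ᵐ x ∂(volume.restrict U), G x = fderiv ℝ u x) →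
    (∀ x ∈ ball (0 : V d) 2, x ∉ U → ∀ r : ℝ, 0 < r → ball x r ⊆ ball 0 2 →
      ε * r ^ d ≤ ∫ y in ball x r, nsq (G y)) →
    hInt u (ball 0 1 ∩ U) ≠ ⊤ → ∀ v w : V d,
    IntegrableOn (fun x => fderiv ℝ (fderiv ℝ u) x v w) (ball 0 1 ∩ U) ∧
    volume (ball (0 : V d) 1 \ U) = 0 ∧
    ∀ φ : V d → ℝ, ContDiff ℝ ∞ φ → HasCompactSupport φ → tsupport φ ⊆ ball 0 1 →
      ∫ x, (fderiv ℝ φ x v) • G x w = - ∫ x in ball 0 1 ∩ U, φ x • fderiv ℝ (fderiv ℝ u) x v w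

/-- The theorem: Q1 in dimension `d + 2` for maps with a regular set. -/
def T_ALL : Prop := ∀ (d m : ℕ) (N : Set (E m)) (A : E m → E m →L[ℝ] E m →L[ℝ] E m) (ε C : ℝ),
    1 ≤ d → IsCompact N → IsSFF N A → 0 < ε → ∃ δ : ℝ, 0 ≤ δ ∧
    ∀ (U : Set (V d)) (u : V d → E m) (G : V d → V d →L[ℝ] E m), StationaryHarmonic N A u G →
    IsOpen U → U ⊆ ball 0 2 → ContDiffOn ℝ ∞ u U →
    (∀ x ∈ ball (0 : V d) 2, x ∉ U → ∀ r : ℝ, 0 < r → ball x r ⊆ ball 0 2 →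
      ε * r ^ d ≤ ∫ y in ball x r, nsq (G y)) →
    ∫ x in ball (0 : V d) 2, nsq (G x) ≤ C →
    ∃ H : Fin (d + 2) → Fin (d + 2) → V d → E m,
      (∀ i j, IntegrableOn (H i j) (ball 0 1)) ∧
      (∀ (i j : Fin (d + 2)) (φ : V d → ℝ), ContDiff ℝ ∞ φ → HasCompactSupport φ →
        tsupport φ ⊆ ball 0 1 →
        ∫ x, (fderiv ℝ φ x (bv i)) • G x (bv j) = - ∫ x, φ x • H i j x) ∧
      ∫⁻ x in ball (0 : V d) 1,
        ENNReal.ofReal (Real.sqrt (∑ i, ∑ j, ‖H i j x‖ ^ 2)) ≤ ENNReal.ofReal δ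

end

end Pool.Agent.H22.AN
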