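import Pool.Agent.H87.AN.LOC0

/-!
# Row LOC of allh_modules (MP_2697e3_an): the local inequality in the frame of a pinched cell
-/

set_option autoImplicit false

namespace Pool.Agent.H87.AN

open MeasureTheory Metric Set Filter Topology Pool.Agent.H87.SN Pool.Agent.H87.SH Pool.Agent.H87.AX
open Pool.Agent.H22.AN Pool.Agent.H1.AN
open scoped ContDiff RealInnerProductSpace ENNReal

noncomputable section

theorem pf_LOC (hLC1 : T_LC1) (hFR1 : T_FR1) (hZMU : T_ZMU) (hMUF : T_MUF) (hBTM : T_BTM) :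
    T_LOC := by
  intro d m L Λ ε er e e₀ hd hL hΛ hε her hEP he heer he0
  obtain ⟨C, hC, hLC⟩ := hLC1 d m L Λ ε er e e₀ hd hL hΛ hε her hEP he heer he0
  -- the volume of a small ball
  obtain ⟨w, hw⟩ : ∃ w : ℝ≥0∞, w = volume (ball (0 : V d) (1 / 64)) := ⟨_, rfl⟩
  have hw0 : w ≠ 0 := by rw [hw]; exact (measure_ball_pos volume _ (by norm_num)).ne'
  have hwt : w ≠ ⊤ := by rw [hw]; exact measure_ball_lt_top.ne
  have hwr : 0 < w.toReal := ENNReal.toReal_pos hw0 hwt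
  refine ⟨C * (1 + w.toReal⁻¹), by positivity, fun q => ?_⟩
  obtain ⟨r, r₁, δ, v, hr, hr₁, hδ, hv, hH⟩ := hLC (q + 6) (by omega)
  obtain ⟨K, om, hom, hF⟩ := hFR1 d m L Λ ε e₀ r₁ δ v hd hL hΛ hε he0 hr₁ hδ hv
  refine ⟨2 * (q + 6), (8 * d + 6) * (q + 6), r + 1, K, om, by omega, by nlinarith, by omega,
    hom, ?_⟩
  intro U u G hSM x₀ hFr
  have hG := hSM.gd.memG
  -- the scales
  obtain ⟨R, hR⟩ : ∃ R : ℝ, R = (1 / 2) ^ r := ⟨_, rfl⟩
  have hR0 : 0 < R := by rw [hR]; positivity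
  have hR1 : R ≤ 1 / 256 := by
    rw [hR]
    calc (1 / 2 : ℝ) ^ r ≤ (1 / 2) ^ 8 := pow_le_pow_of_le_one (by norm_num) (by norm_num) hr
      _ = 1 / 256 := by norm_num
  obtain ⟨σ, hσ⟩ : ∃ σ : ℝ, σ = shq (q + 6) := ⟨_, rfl⟩
  have hσ0 : 0 < σ := by rw [hσ]; unfold shq; positivity
  have hσ1 : σ ≤ 1 := by rw [hσ]; unfold shq; exact pow_le_one₀ (by norm_num) (by norm_num)
  obtain ⟨h, hh⟩ : ∃ h : ℝ, h = hhq d (q + 6) := ⟨_, rfl⟩
  have hh0 : 0 < h := by rw [hh]; unfold hhq; positivity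
  have hh1 : h ≤ 1 := by rw [hh]; unfold hhq; exact pow_le_one₀ (by norm_num) (by norm_num)
  have ea : (1 / 2 : ℝ) ^ (2 * (q + 6)) * (1 / 2) ^ (r + 1) = 1 / 2 * (σ * R) := by
    rw [hσ, hR]
    unfold shq
    rw [pow_succ]
    ring
  have eb : (1 / 2 : ℝ) ^ ((8 * d + 6) * (q + 6)) * (1 / 2) ^ (r + 1) = 1 / 2 * (h * R) := by
    rw [hh, hR]
    unfold hhq
    rw [pow_succ]
    ring
  have er1 : (1 / 2 : ℝ) ^ (r + 1) = 1 / 2 * R := by
    rw [hR, pow_succ]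
    ring
  have hσR : σ * R ≤ 1 / 8 := by nlinarith
  have hhR : h * R ≤ 1 / 8 := by nlinarith
  unfold Rr
  rw [ea, eb, er1]
  -- the empty case
  by_cases hex : ∃ y : V d, y ∈ ball x₀ (1 / 2 * R / 256) ∧ e₀ ≤ th G y (1 / 2 * (σ * R))
  swap
  · have h1 : {y : V d | y ∈ ball x₀ (1 / 2 * R / 256) ∧ e₀ ≤ th G y (1 / 2 * (σ * R))} = ∅ :=
      eq_empty_of_forall_notMem fun y hy => hex ⟨y, hy⟩
    have h2 : {y : V d | y ∈ ball x₀ (1 / 2 * R / 256) ∧ e₀ ≤ th G y (1 / 2 * (σ * R)) ∧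
        th G y (1 / 2 * (σ * R) / 8) < 2 * er} = ∅ :=
      eq_empty_of_forall_notMem fun y hy => hex ⟨y, hy.1, hy.2.1⟩
    rw [h1, h2]
    simp
  obtain ⟨y₀, hy₀, hy₀e⟩ := hex
  -- names for the integrals
  obtain ⟨J₁, hJ₁⟩ : ∃ J : ℝ≥0∞, J = ∫⁻ x in {x : V d | x ∈ ball x₀ (1 / 2 * R) ∧
      e ≤ th G x (1 / 2 * (h * R))}, bs G x (1 / 2 * (h * R)) := ⟨_, rfl⟩
  obtain ⟨J₂, hJ₂⟩ : ∃ J : ℝ≥0∞, J = ∫⁻ x in {x : V d | x ∈ ball x₀ (1 / 2 * R) ∧
      e ≤ th G x (1 / 2 * R)}, bs G x (1 / 2 * R) := ⟨_, rfl⟩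
  obtain ⟨J₃, hJ₃⟩ : ∃ J : ℝ≥0∞, J = ∫⁻ x in {x : V d | x ∈ ball x₀ (1 / 16) ∧
      e ≤ th G x (1 / 8)}, bs G x (1 / 8) := ⟨_, rfl⟩
  rw [← hJ₁, ← hJ₂, ← hJ₃]
  -- constants of the zoom
  obtain ⟨P, hP⟩ : ∃ P : ℝ≥0∞, P = ENNReal.ofReal (2 ^ d) := ⟨_, rfl⟩
  have hP0 : P ≠ 0 := by rw [hP]; exact (ENNReal.ofReal_pos.2 (by positivity)).ne'
  have hPt : P ≠ ⊤ := by rw [hP]; exact ENNReal.ofReal_ne_top
  have hS : ∀ k : ℝ, 0 < k → ENNReal.ofReal ((k ^ 2)⁻¹) * ENNReal.ofReal (((1 / 2 : ℝ) ^ (d + 2))⁻¹) =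
      P * ENNReal.ofReal (((1 / 2 * k) ^ 2)⁻¹) := by
    intro k hk
    rw [hP, ← ENNReal.ofReal_mul (by positivity), ← ENNReal.ofReal_mul (by positivity)]
    congr 1
    rw [pow_add, one_div, inv_pow, inv_pow]
    field_simp
  -- the inequality with a small error
  have hmain : ∀ X : ℝ≥0∞, (∀ η : ℝ, 0 < η → ENNReal.ofReal (((1 / 2 * (σ * R)) ^ 2)⁻¹) * X ≤
      ENNReal.ofReal (C * (1 / 2) ^ (q + 6)) * (
        ENNReal.ofReal (((1 / 2 * (h * R)) ^ 2)⁻¹) * J₁ +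
        ENNReal.ofReal (((1 / 2 * R) ^ 2)⁻¹) * J₂ +
        ENNReal.ofReal ((1 / 2 * R) ^ d) * (w⁻¹ * J₃ + ENNReal.ofReal (Real.sqrt η)))) →
      ENNReal.ofReal (((1 / 2 * (σ * R)) ^ 2)⁻¹) * X ≤
      ENNReal.ofReal (C * (1 + w.toReal⁻¹) * (1 / 2) ^ q) * (
        ENNReal.ofReal (((1 / 2 * (h * R)) ^ 2)⁻¹) * J₁ +
        ENNReal.ofReal (((1 / 2 * R) ^ 2)⁻¹) * J₂ + ENNReal.ofReal ((1 / 2 * R) ^ d) * J₃) := by
    intro X hX
    have h1 : ENNReal.ofReal (((1 / 2 * (σ * R)) ^ 2)⁻¹) * X ≤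
        ENNReal.ofReal (C * (1 / 2) ^ (q + 6)) * (
        ENNReal.ofReal (((1 / 2 * (h * R)) ^ 2)⁻¹) * J₁ +
        ENNReal.ofReal (((1 / 2 * R) ^ 2)⁻¹) * J₂ +
        ENNReal.ofReal ((1 / 2 * R) ^ d) * (w⁻¹ * J₃)) := by
      obtain ⟨B, hB⟩ : ∃ B : ℝ, B = C * (1 / 2) ^ (q + 6) * (1 / 2 * R) ^ d := ⟨_, rfl⟩
      have hB0 : 0 ≤ B := by rw [hB]; positivity
      refine ENNReal.le_of_forall_pos_le_add fun κ hκ _ => ?_
      have hκ' : (0 : ℝ) < κ := hκ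
      have h2 := hX ((κ / (B + 1)) ^ 2) (by positivity)
      refine h2.trans ?_
      rw [Real.sqrt_sq (by positivity)]
      have h3 : ENNReal.ofReal (C * (1 / 2) ^ (q + 6)) * (ENNReal.ofReal ((1 / 2 * R) ^ d) *
          ENNReal.ofReal (κ / (B + 1))) ≤ (κ : ℝ≥0∞) := by
        rw [← ENNReal.ofReal_mul (by positivity), ← ENNReal.ofReal_mul (by positivity),
          ← mul_assoc, ← hB, ← ENNReal.ofReal_coe_nnreal]
        refine ENNReal.ofReal_le_ofReal ?_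
        rw [mul_div_assoc', div_le_iff₀ (by positivity)]
        nlinarith
      calc _ = ENNReal.ofReal (C * (1 / 2) ^ (q + 6)) * (
            ENNReal.ofReal (((1 / 2 * (h * R)) ^ 2)⁻¹) * J₁ +
            ENNReal.ofReal (((1 / 2 * R) ^ 2)⁻¹) * J₂ +
            ENNReal.ofReal ((1 / 2 * R) ^ d) * (w⁻¹ * J₃)) +
            ENNReal.ofReal (C * (1 / 2) ^ (q + 6)) * (ENNReal.ofReal ((1 / 2 * R) ^ d) *
            ENNReal.ofReal (κ / (B + 1))) := by ring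
        _ ≤ _ := by gcongr
    refine h1.trans ?_
    have h4 : C * (1 / 2) ^ (q + 6) ≤ C * (1 / 2) ^ q := by
      have : (1 / 2 : ℝ) ^ (q + 6) ≤ (1 / 2) ^ q :=
        pow_le_pow_of_le_one (by norm_num) (by norm_num) (by omega)
      gcongr
    have h5 : w⁻¹ ≤ ENNReal.ofReal (1 + w.toReal⁻¹) := by
      rw [← ENNReal.ofReal_toReal hwt, ← ENNReal.ofReal_inv_of_pos hwr, ENNReal.toReal_ofReal
        hwr.le]
      exact ENNReal.ofReal_le_ofReal (by linarith)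
    have h6 : (1 : ℝ≥0∞) ≤ ENNReal.ofReal (1 + w.toReal⁻¹) := by
      rw [← ENNReal.ofReal_one]
      exact ENNReal.ofReal_le_ofReal (by have : 0 ≤ w.toReal⁻¹ := by positivity
                                         linarith)
    have h7 : ENNReal.ofReal (C * (1 + w.toReal⁻¹) * (1 / 2) ^ q) =
        ENNReal.ofReal (C * (1 / 2) ^ q) * ENNReal.ofReal (1 + w.toReal⁻¹) := by
      rw [← ENNReal.ofReal_mul (by positivity)]
      congr 1
      ring
    rw [h7, mul_assoc (ENNReal.ofReal (C * (1 / 2) ^ q))]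
    refine mul_le_mul' (ENNReal.ofReal_le_ofReal h4) ?_
    rw [mul_add, mul_add]
    refine add_le_add (add_le_add (le_mul_of_one_le_left' h6) (le_mul_of_one_le_left' h6)) ?_
    calc ENNReal.ofReal ((1 / 2 * R) ^ d) * (w⁻¹ * J₃) = w⁻¹ *
            (ENNReal.ofReal ((1 / 2 * R) ^ d) * J₃) := mul_left_comm _ _ _
        _ ≤ _ := mul_le_mul' h5 le_rfl
  have hcon : ∀ η : ℝ, 0 < η →
      ENNReal.ofReal (((1 / 2 * (σ * R)) ^ 2)⁻¹) *
        (∫⁻ x in {x : V d | x ∈ ball x₀ (1 / 2 * R / 256) ∧ e₀ ≤ th G x (1 / 2 * (σ * R))},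
          bs G x (1 / 2 * (σ * R))) ≤
      ENNReal.ofReal (C * (1 / 2) ^ (q + 6)) * (
        ENNReal.ofReal (((1 / 2 * (h * R)) ^ 2)⁻¹) * J₁ +
        ENNReal.ofReal (((1 / 2 * R) ^ 2)⁻¹) * J₂ +
        ENNReal.ofReal ((1 / 2 * R) ^ d) * (w⁻¹ * J₃ + ENNReal.ofReal (Real.sqrt η))) ∧
      ENNReal.ofReal (((1 / 2 * (σ * R)) ^ 2)⁻¹) *
        (∫⁻ x in {x : V d | x ∈ ball x₀ (1 / 2 * R / 256) ∧ e₀ ≤ th G x (1 / 2 * (σ * R)) ∧
          th G x (1 / 2 * (σ * R) / 8) < 2 * er},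
          ENNReal.ofReal (Real.sqrt (th G x (1 / 2 * (σ * R) / 128)))) ≤
      ENNReal.ofReal (C * (1 / 2) ^ (q + 6)) * (
        ENNReal.ofReal (((1 / 2 * (h * R)) ^ 2)⁻¹) * J₁ +
        ENNReal.ofReal (((1 / 2 * R) ^ 2)⁻¹) * J₂ +
        ENNReal.ofReal ((1 / 2 * R) ^ d) * (w⁻¹ * J₃ + ENNReal.ofReal (Real.sqrt η))) := by
    intro η hη
    obtain ⟨c, g, x₁, hc, hx0, hF1, hVb⟩ := hF U u G hSM x₀ hFr η hη
    have hx₁ : ‖x₁‖ ≤ 1 / 8 := by
      exact loc_nle hF1.zx hF1.rx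
    have hpb : ball c (2 * (1 / 2)) ⊆ ball (0 : V d) 2 := by
      refine ball_subset_ball' ?_
      rw [dist_zero_right]
      linarith
    obtain ⟨t1, t2, t3, t4⟩ := loc_tr hZMU hMUF hBTM hG c g (by norm_num : (0 : ℝ) < 1 / 2) hpb x₁
      hx₁
    rw [← hx0] at t2 t3 t4
    have hLC' := hH _ _ _ x₁ hF1
    rw [← hσ, ← hR] at hLC'
    rcases hLC' with h1 | ⟨hrx, hq1, hq2, hq3⟩
    · exfalso
      obtain ⟨y₁, hy₁⟩ := zm_surj c (by norm_num : (0 : ℝ) < 1 / 2) g y₀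
      have h2 : y₁ ∈ ball x₁ (R / 256) := by
        rw [← t4 y₁ (R / 256), hy₁, show (1 / 2 : ℝ) * (R / 256) = 1 / 2 * R / 256 by ring]
        exact hy₀
      have h3 : y₁ ∈ {x : V d | x ∈ ball x₁ (R / 256) ∧ e₀ ≤ th (zG c (1 / 2) g G) x (σ * R)} := by
        refine ⟨h2, ?_⟩
        rw [t1 y₁ (ball_subset_ball (by linarith) h2) _ (by positivity) (by linarith), hy₁]
        exact hy₀e
      rw [h1] at h3
      exact h3
    -- the third term
    have hV : ENNReal.ofReal (Real.sqrt (V2 (zG c (1 / 2) g G) 1)) ≤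
        w⁻¹ * J₃ + ENNReal.ofReal (Real.sqrt η) := by
      have h2 : ball x₀ (1 / 64) ⊆ {x : V d | x ∈ ball x₀ (1 / 16) ∧ e ≤ th G x (1 / 8)} := by
        intro x hx
        refine ⟨ball_subset_ball (by norm_num) hx, ?_⟩
        obtain ⟨y, hy⟩ := zm_surj c (by norm_num : (0 : ℝ) < 1 / 2) g x
        have h3 : y ∈ ball x₁ (1 / 32) := by
          rw [← t4 y (1 / 32), hy]
          convert hx using 2
          norm_num
        have h4 : ‖y - x₁‖ < 1 / 32 := by rwa [mem_ball, dist_eq_norm] at h3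
        have h7 : ‖y‖ ≤ ‖x₁‖ + ‖y - x₁‖ := by
          have := norm_add_le x₁ (y - x₁)
          rwa [add_sub_cancel] at this
        have h8 : ‖x₁‖ ≤ 1 / 64 := loc_nle hF1.zx hrx
        have h11 : rho y < 1 / 16 := (loc_rle y).trans_lt (by linarith)
        have h12 : ‖zp y‖ ≤ 1 / 8 := (loc_zle y).trans (by linarith)
        have h13 := hq1 y h11 h12
        rw [t1 y (ball_subset_ball (by norm_num) h3) _ (by norm_num) (by norm_num), hy] at h13
        have h14 : (1 / 2 : ℝ) * (1 / 4) = 1 / 8 := by norm_num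
        rw [h14] at h13
        linarith
      have hvol : volume (ball x₀ (1 / 64)) = w := by
        rw [hw]
        exact Measure.addHaar_ball_center _ _ _
      have hbm := (hBTM d m G hG (1 / 8) (by norm_num)).2
      have h15 : ENNReal.ofReal (Real.sqrt (V2 (zG c (1 / 2) g G) 1)) * w ≤
          J₃ + ENNReal.ofReal (Real.sqrt η) * w := by
        calc ENNReal.ofReal (Real.sqrt (V2 (zG c (1 / 2) g G) 1)) * w
            = ∫⁻ _ in ball x₀ (1 / 64), ENNReal.ofReal (Real.sqrt (V2 (zG c (1 / 2) g G) 1)) := by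
              rw [setLIntegral_const, hvol]
          _ ≤ ∫⁻ x in ball x₀ (1 / 64), (bs G x (1 / 8) + ENNReal.ofReal (Real.sqrt η)) := by
              refine setLIntegral_mono' measurableSet_ball fun x hx => ?_
              have h16 := hVb x (ball_subset_ball (by norm_num) hx)
              have h17 : ENNReal.ofReal (Real.sqrt (V2 (zG c (1 / 2) g G) 1)) =
                  ENNReal.ofReal (V2 (zG c (1 / 2) g G) 1) ^ (1 / 2 : ℝ) := by
                rw [Real.sqrt_eq_rpow, ENNReal.ofReal_rpow_of_nonneg _ (by norm_num)]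
                unfold V2
                exact integral_nonneg fun x => mul_nonneg (sq_nonneg _)
                  (Finset.sum_nonneg fun _ _ => sq_nonneg _)
              have h18 : ENNReal.ofReal (Real.sqrt η) = ENNReal.ofReal η ^ (1 / 2 : ℝ) := by
                rw [Real.sqrt_eq_rpow, ENNReal.ofReal_rpow_of_nonneg hη.le (by norm_num)]
              rw [h17, h18]
              exact (ENNReal.rpow_le_rpow h16 (by norm_num)).trans
                (ENNReal.rpow_add_le_add_rpow _ _ (by norm_num) (by norm_num))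
          _ = (∫⁻ x in ball x₀ (1 / 64), bs G x (1 / 8)) + ENNReal.ofReal (Real.sqrt η) * w := by
              rw [lintegral_add_left hbm, setLIntegral_const, hvol]
          _ ≤ _ := by
              rw [hJ₃]
              exact add_le_add (lintegral_mono_set h2) le_rfl
      have h19 : w⁻¹ * (ENNReal.ofReal (Real.sqrt (V2 (zG c (1 / 2) g G) 1)) * w) ≤
          w⁻¹ * (J₃ + ENNReal.ofReal (Real.sqrt η) * w) := by gcongr
      have h20 : w⁻¹ * w = 1 := ENNReal.inv_mul_cancel hw0 hwt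
      calc ENNReal.ofReal (Real.sqrt (V2 (zG c (1 / 2) g G) 1))
          = w⁻¹ * (ENNReal.ofReal (Real.sqrt (V2 (zG c (1 / 2) g G) 1)) * w) := by
            rw [mul_comm (ENNReal.ofReal _) w, ← mul_assoc, h20, one_mul]
        _ ≤ w⁻¹ * (J₃ + ENNReal.ofReal (Real.sqrt η) * w) := h19
        _ = w⁻¹ * J₃ + ENNReal.ofReal (Real.sqrt η) := by
            rw [mul_add, mul_comm (ENNReal.ofReal (Real.sqrt η)) w, ← mul_assoc w⁻¹ w, h20, one_mul]
    have hR1e : R1 (zG c (1 / 2) g G) e C (q + 6) r x₁ = ENNReal.ofReal (C * (1 / 2) ^ (q + 6)) * (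
        ENNReal.ofReal (((h * R) ^ 2)⁻¹) * (ENNReal.ofReal (((1 / 2 : ℝ) ^ (d + 2))⁻¹) * J₁) +
        ENNReal.ofReal ((R ^ 2)⁻¹) * (ENNReal.ofReal (((1 / 2 : ℝ) ^ (d + 2))⁻¹) * J₂) +
        ENNReal.ofReal (R ^ d * Real.sqrt (V2 (zG c (1 / 2) g G) 1))) := by
      unfold R1
      rw [← hh, ← hR, t2 _ _ e (by positivity) hhR (by linarith),
        t2 _ _ e (by positivity) (by linarith) (by linarith), hJ₁, hJ₂]
    have hthird : ENNReal.ofReal (R ^ d * Real.sqrt (V2 (zG c (1 / 2) g G) 1)) =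
        P * (ENNReal.ofReal ((1 / 2 * R) ^ d) *
          ENNReal.ofReal (Real.sqrt (V2 (zG c (1 / 2) g G) 1))) := by
      rw [hP, ← mul_assoc, ← ENNReal.ofReal_mul (by positivity), ← ENNReal.ofReal_mul
        (by positivity)]
      congr 2
      rw [← mul_pow]
      congr 1
      ring
    have hfin : ∀ X : ℝ≥0∞, ENNReal.ofReal (((σ * R) ^ 2)⁻¹) *
        (ENNReal.ofReal (((1 / 2 : ℝ) ^ (d + 2))⁻¹) * X) ≤ R1 (zG c (1 / 2) g G) e C (q + 6) r x₁ →
        ENNReal.ofReal (((1 / 2 * (σ * R)) ^ 2)⁻¹) * X ≤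
        ENNReal.ofReal (C * (1 / 2) ^ (q + 6)) * (
        ENNReal.ofReal (((1 / 2 * (h * R)) ^ 2)⁻¹) * J₁ +
        ENNReal.ofReal (((1 / 2 * R) ^ 2)⁻¹) * J₂ +
        ENNReal.ofReal ((1 / 2 * R) ^ d) * (w⁻¹ * J₃ + ENNReal.ofReal (Real.sqrt η))) := by
      intro X hX
      rw [hR1e] at hX
      have h1 := loc_fac hP0 hPt (hS (σ * R) (by positivity)) (hS (h * R) (by positivity))
        (hS R hR0) hthird hX
      refine h1.trans ?_
      gcongr
    constructor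
    · apply hfin
      rw [show (1 / 2 : ℝ) * R / 256 = 1 / 2 * (R / 256) by ring,
        ← t2 (R / 256) (σ * R) e₀ (by positivity) hσR (by linarith)]
      exact hq2
    · apply hfin
      rw [show (1 / 2 : ℝ) * R / 256 = 1 / 2 * (R / 256) by ring,
        ← t3 (R / 256) (σ * R) e₀ (2 * er) (by positivity) hσR (by linarith)]
      exact hq3
  exact ⟨hmain _ fun η hη => (hcon η hη).1, hmain _ fun η hη => (hcon η hη).2⟩

end

end Pool.Agent.H87.AN
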