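import Pool.Agent.H87.AX.Done
import Pool.Agent.H87.AN.TargetsC
import Pool.Agent.H22.AN.TB3
import Pool.Agent.H1.AN.PMNT
import Pool.Agent.H1.AN.REC
import Pool.Agent.H11.AN.BWF
import Pool.Agent.H11.AN.HTR
import Pool.Agent.H12.AN.KPL
import Pool.Agent.H12.AN.ZMU
import Pool.Agent.H13.AN.ANN
import Pool.Agent.H13.AN.CMP
import Pool.Agent.H16.AN.FRA
import Pool.Agent.H17.AN.GST
import Pool.Agent.H19.AN.KST
import Pool.Agent.H19.AN.LGE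
import Pool.Agent.H19.AN.MA1
import Pool.Agent.H19.AN.PKW
import Pool.Agent.H19.AN.VOL
import Pool.Agent.H21.AN.ANK
import Pool.Agent.H21.AN.HS0
import Pool.Agent.H21.AN.SUM
import Pool.Agent.H26.AN.CAC
import Pool.Agent.H26.AN.CEN
import Pool.Agent.H27.AN.HSJ
import Pool.Agent.H27.AN.LQA
import Pool.Agent.H32.AN.PRF
import Pool.Agent.H32.AN.RAD
import Pool.Agent.H32.AN.ZOM
import Pool.Agent.H33.AN.AB1
import Pool.Agent.H33.AN.JEN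
import Pool.Agent.H33.AN.NSH
import Pool.Agent.H34.AN.LIN
import Pool.Agent.H34.AN.NEA
import Pool.Agent.H34.AN.PQB
import Pool.Agent.H35.AN.LC1
import Pool.Agent.H36.AN.FONC
import Pool.Agent.H36.AN.NSF
import Pool.Agent.H36.AN.SPT
import Pool.Agent.H37.AN.HSN
import Pool.Agent.H37.AN.NCK
import Pool.Agent.H37.AN.PID
import Pool.Agent.H38.AN.FR1
import Pool.Agent.H40.AN.TCS
import Pool.Agent.H42.AN.CE0
import Pool.Agent.H44.AN.AB2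
import Pool.Agent.H50.AN.BWP
import Pool.Agent.H50.AN.CNS
import Pool.Agent.H52.AN.FMB
import Pool.Agent.H52.AN.NRM
import Pool.Agent.H53.AN.MA3
import Pool.Agent.H53.AN.TAY
import Pool.Agent.H55.AN.HST
import Pool.Agent.H56.AN.CTF
import Pool.Agent.H56.AN.JST
import Pool.Agent.H59.AN.DSH
import Pool.Agent.H59.AN.TOG
import Pool.Agent.H60.AN.ALL
import Pool.Agent.H63.ALLH.EPC
import Pool.Agent.H63.ALLH.EPR
import Pool.Agent.H66.AN.AZ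
import Pool.Agent.H66.AN.ISO
import Pool.Agent.H67.AN.BTF
import Pool.Agent.H67.AN.BTM
import Pool.Agent.H67.AN.MA2
import Pool.Agent.H67.AN.QNT
import Pool.Agent.H68.AN.CHF
import Pool.Agent.H68.AN.HLC
import Pool.Agent.H68.AN.MLB
import Pool.Agent.H68.AN.TUB
import Pool.Agent.H69.AN.PZ
import Pool.Agent.H69.AN.TVL
import Pool.Agent.H7.AN.ALG
import Pool.Agent.H7.AN.SMI
import Pool.Agent.H75.AN.FMO
import Pool.Agent.H79.ALLH.ONB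
import Pool.Agent.H79.AN.GRD
import Pool.Agent.H80.AN.WTS
import Pool.Agent.H87.AN.LOC
import Pool.Agent.H89.AN.OCN
import Pool.Agent.H89.AN.SEL
import Pool.Agent.H95.AN.MUF
import Pool.Agent.H97.AN.ABS
import Pool.Agent.H97.AN.KNS
import Pool.Agent.H99.AN.SQ3

/-! Collection of the rows of the board allh (MP_2697e3_an). -/

namespace Pool.Agent.H87.AN

open Pool.Agent.H87.SN Pool.Agent.H87.SH Pool.Agent.H87.AX

/-- The theorem in all dimensions for maps with a regular set. -/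
theorem f_ALL : Pool.Agent.H22.AN.T_ALL := by
  have hEPS : T_EPS := pf_EPS f_PHI (g_SCH (mvi_of_mvx f_MVX)) (mvi_of_mvx f_MVX) f_BO1
  have hALG : Pool.Agent.H22.AN.T_ALG := Pool.Agent.H7.AN.pf_ALG
  have hANK : Pool.Agent.H22.AN.T_ANK := Pool.Agent.H21.AN.pf_ANK Pool.Agent.H87.SN.f_ROT
      Pool.Agent.H87.SN.f_LA2 Pool.Agent.H87.SN.f_GRN Pool.Agent.H87.SN.f_BO2
      Pool.Agent.H87.SN.f_WIC
  have hBTF : Pool.Agent.H22.AN.T_BTF := Pool.Agent.H67.AN.pf_BTF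
  have hBWF : Pool.Agent.H22.AN.T_BWF := Pool.Agent.H11.AN.pf_BWF Pool.Agent.H87.SH.f_PHI
  have hBWP : Pool.Agent.H22.AN.T_BWP := Pool.Agent.H50.AN.pf_BWP Pool.Agent.H87.SH.f_PHI
  have hCHF : Pool.Agent.H22.AN.T_CHF := Pool.Agent.H68.AN.pf_CHF
  have hCTF : Pool.Agent.H22.AN.T_CTF := Pool.Agent.H56.AN.pf_CTF
  have hISO : Pool.Agent.H22.AN.T_ISO := Pool.Agent.H66.AN.pf_ISO
  have hLIN : Pool.Agent.H22.AN.T_LIN := Pool.Agent.H34.AN.pf_LIN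
  have hMNT : Pool.Agent.H22.AN.T_MNT := Pool.Agent.H1.AN.pf_MNT
  have hMUF : Pool.Agent.H22.AN.T_MUF := Pool.Agent.H95.AN.pf_MUF
  have hNEA : Pool.Agent.H22.AN.T_NEA := Pool.Agent.H34.AN.pf_NEA
  have hNSF : Pool.Agent.H22.AN.T_NSF := Pool.Agent.H36.AN.pf_NSF
  have hOCN : Pool.Agent.H22.AN.T_OCN := Pool.Agent.H89.AN.pf_OCN hMUF
  have hONB : Pool.Agent.H22.AN.T_ONB := Pool.Agent.H79.ALLH.pf_ONB
  have hPID : Pool.Agent.H22.AN.T_PID := Pool.Agent.H37.AN.pf_PID Pool.Agent.H87.SN.f_LA1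
  have hPKW : Pool.Agent.H22.AN.T_PKW := Pool.Agent.H19.AN.pf_PKW hMUF hMNT
  have hPQB : Pool.Agent.H22.AN.T_PQB := Pool.Agent.H34.AN.pf_PQB hMUF hMNT Pool.Agent.H87.SN.f_LA3
  have hPRF : Pool.Agent.H22.AN.T_PRF := Pool.Agent.H32.AN.pf_PRF
  have hRAD : Pool.Agent.H22.AN.T_RAD := Pool.Agent.H32.AN.pf_RAD hMUF hMNT Pool.Agent.H87.SN.f_LA3
  have hSQ3 : Pool.Agent.H22.AN.T_SQ3 := Pool.Agent.H99.AN.pf_SQ3
  have hTAY : Pool.Agent.H22.AN.T_TAY := Pool.Agent.H53.AN.pf_TAY hBWF hCHF hMUF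
  have hTOG : Pool.Agent.H22.AN.T_TOG := Pool.Agent.H59.AN.pf_TOG
  have hTUB : Pool.Agent.H22.AN.T_TUB := Pool.Agent.H68.AN.pf_TUB hMUF
  have hTVL : Pool.Agent.H22.AN.T_TVL := Pool.Agent.H69.AN.pf_TVL hISO
  have hVOL : Pool.Agent.H22.AN.T_VOL := Pool.Agent.H19.AN.pf_VOL hMUF
  have hWTS : Pool.Agent.H22.AN.T_WTS := Pool.Agent.H80.AN.pf_WTS
  have hZMU : Pool.Agent.H22.AN.T_ZMU := Pool.Agent.H12.AN.pf_ZMU hMUF
  have hZOM : Pool.Agent.H22.AN.T_ZOM := Pool.Agent.H32.AN.pf_ZOM hZMU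
  have hAB1 : Pool.Agent.H22.AN.T_AB1 := Pool.Agent.H33.AN.pf_AB1 hTOG hMUF hMNT hVOL
  have hANN : Pool.Agent.H22.AN.T_ANN := Pool.Agent.H13.AN.pf_ANN hMUF hPID hPRF
      Pool.Agent.H87.SN.f_LA1
  have hAZ : Pool.Agent.H22.AN.T_AZ := Pool.Agent.H66.AN.pf_AZ hANK hWTS Pool.Agent.H87.SN.f_INN
      Pool.Agent.H87.SN.f_ROT Pool.Agent.H87.SN.f_LA3 hMUF
  have hBTM : Pool.Agent.H22.AN.T_BTM := Pool.Agent.H67.AN.pf_BTM hMUF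
  have hCAC : Pool.Agent.H22.AN.T_CAC := Pool.Agent.H26.AN.pf_CAC hPID Pool.Agent.H87.SN.f_LA1
      Pool.Agent.H87.SN.f_LA3 hMUF
  have hCNS : Pool.Agent.H22.AN.T_CNS := Pool.Agent.H50.AN.pf_CNS hMUF hCHF
  have hDSH : Pool.Agent.H22.AN.T_DSH := Pool.Agent.H59.AN.pf_DSH hMUF hVOL hCTF
      Pool.Agent.H87.SN.f_IBP
  have hEPR : Pool.Agent.H22.AN.T_EPR := Pool.Agent.H63.ALLH.EPR.pf_EPR hEPS hMUF
  have hFMB : Pool.Agent.H22.AN.T_FMB := Pool.Agent.H52.AN.pf_FMB hMUF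
  have hFMO : Pool.Agent.H22.AN.T_FMO := Pool.Agent.H75.AN.pf_FMO hMNT
  have hGRD : Pool.Agent.H22.AN.T_GRD := Pool.Agent.H79.AN.pf_GRD hCAC hBWF hCHF hMUF
  have hGST : Pool.Agent.H22.AN.T_GST := Pool.Agent.H17.AN.pf_GST hMUF
  have hHLC : Pool.Agent.H22.AN.T_HLC := Pool.Agent.H68.AN.pf_HLC Pool.Agent.H87.SH.f_LHE hMUF
  have hHS0 : Pool.Agent.H22.AN.T_HS0 := Pool.Agent.H21.AN.pf_HS0 hHLC
  have hHSJ : Pool.Agent.H22.AN.T_HSJ := Pool.Agent.H27.AN.pf_HSJ hMUF hHLC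
  have hHTR : Pool.Agent.H22.AN.T_HTR := Pool.Agent.H11.AN.pf_HTR hMUF hVOL hBTF
  have hJEN : Pool.Agent.H22.AN.T_JEN := Pool.Agent.H33.AN.pf_JEN hBWF hCHF hMUF
  have hLGE : Pool.Agent.H22.AN.T_LGE := Pool.Agent.H19.AN.LGE.pf_LGE hOCN
  have hMA1 : Pool.Agent.H22.AN.T_MA1 := Pool.Agent.H19.AN.MA1.pf_MA1 hCNS hCHF hBWF hBWP hMUF
  have hMA2 : Pool.Agent.H22.AN.T_MA2 := Pool.Agent.H67.AN.pf_MA2 hCNS hCHF hBWP hMUF
  have hMA3 : Pool.Agent.H22.AN.T_MA3 := Pool.Agent.H53.AN.pf_MA3 hCNS hBWP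
  have hMLB : Pool.Agent.H22.AN.T_MLB := Pool.Agent.H68.AN.pf_MLB hBWF hCHF hMUF
  have hNCK : Pool.Agent.H22.AN.T_NCK := Pool.Agent.H37.AN.pf_NCK hMUF hEPR hRAD hANN
  have hNRM : Pool.Agent.H22.AN.T_NRM := Pool.Agent.H52.AN.pf_NRM hJEN hALG hMUF
  have hNSH : Pool.Agent.H22.AN.T_NSH := Pool.Agent.H33.AN.NSHn.pf_NSH hGRD hNSF hBWF hCHF hMUF
      Pool.Agent.H87.SN.f_POL
  have hPZ : Pool.Agent.H22.AN.T_PZ := Pool.Agent.H69.AN.pf_PZ hPID hWTS Pool.Agent.H87.SN.f_LA1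
      Pool.Agent.H87.SN.f_LA3 hMUF
  have hQNT : Pool.Agent.H22.AN.T_QNT := Pool.Agent.H67.AN.pf_QNT hTVL hMUF hBTF hBWF hCHF
  have hSMI : Pool.Agent.H22.AN.T_SMI := Pool.Agent.H7.AN.pf_SMI hMUF hZMU hMNT
      Pool.Agent.H87.SN.f_ST1 Pool.Agent.H87.SN.f_CL1 Pool.Agent.H87.SN.f_CL2
      Pool.Agent.H87.SN.f_CL3 Pool.Agent.H87.AX.f_GE2
  have hSPT : Pool.Agent.H22.AN.T_SPT := Pool.Agent.H36.AN.pf_SPT hTUB hMUF
  have hTCS : Pool.Agent.H22.AN.T_TCS := Pool.Agent.H40.AN.pf_TCS hTVL hMUF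
  have hAB2 : Pool.Agent.H22.AN.T_AB2 := Pool.Agent.H44.AN.pf_AB2 hTOG hMUF hVOL hBTM
  have hABS : Pool.Agent.H22.AN.T_ABS := Pool.Agent.H97.AN.pf_ABS hAB1 hAB2 hBTM
  have hCE0 : Pool.Agent.H22.AN.T_CE0 := Pool.Agent.H42.AN.pf_CE0 hMA1 hMA3 hBWF hCHF hMUF
  have hCEN : Pool.Agent.H22.AN.T_CEN := Pool.Agent.H26.AN.pf_CEN hCAC hMA1 hMA2 hMA3 hTAY hMUF
  have hCMP : Pool.Agent.H22.AN.T_CMP := Pool.Agent.H13.ANC.pf_CMP hJEN hALG hMUF hBTF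
  have hEPC : Pool.Agent.H22.AN.T_EPC := Pool.Agent.H63.ALLH.EPC.pf_EPC hEPR
  have hF1C : Pool.Agent.H22.AN.T_F1C := Pool.Agent.H36.AN.pf_F1C hCAC hOCN hCE0 hMLB hCEN hQNT hMUF
  have hFRA : Pool.Agent.H22.AN.T_FRA := Pool.Agent.H16.AN.pf_FRA hNCK hCE0 hMLB hNRM hOCN hBTF hMUF
  have hHST : Pool.Agent.H22.AN.T_HST := Pool.Agent.H55.AN.pf_HST hABS hHTR hBTF hBTM hMUF
  have hJST : Pool.Agent.H22.AN.T_JST := Pool.Agent.H56.AN.pf_JST hABS hMUF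
  have hKST : Pool.Agent.H22.AN.T_KST := Pool.Agent.H19.AN.KST.pf_KST hPZ hAZ hWTS
      Pool.Agent.H87.SN.f_CUT hMUF
  have hLQA : Pool.Agent.H22.AN.T_LQA := Pool.Agent.H27.AN.pf_LQA hCMP hTVL hMUF
  have hSEL : Pool.Agent.H22.AN.T_SEL := Pool.Agent.H89.AN.pf_SEL hMUF hZMU hGST hPQB hONB hSPT
  have hFR1 : Pool.Agent.H22.AN.T_FR1 := Pool.Agent.H38.AN.pf_FR1 hFRA hISO hNEA hZMU hZOM hMUF
  have hKNS : Pool.Agent.H22.AN.T_KNS := Pool.Agent.H97.AN.KNS.pf_KNS hKST hNSH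
  have hKPL : Pool.Agent.H22.AN.T_KPL := Pool.Agent.H12.AN.pf_KPL hKNS hISO hZMU hZOM hMUF
  have hLC1 : Pool.Agent.H22.AN.T_LC1 := Pool.Agent.H35.AN.pf_LC1 hF1C hLQA hLGE hKPL hTCS hFMB
      hLIN hMUF
  have hLOC : Pool.Agent.H22.AN.T_LOC := Pool.Agent.H87.AN.pf_LOC hLC1 hFR1 hZMU hMUF hBTM
  have hREC : Pool.Agent.H22.AN.T_REC := Pool.Agent.H1.AN.pf_REC hLOC hSEL hFMO hZMU hZOM hMUF hBTM
  have hSUM : Pool.Agent.H22.AN.T_SUM := Pool.Agent.H21.AN.pf_SUM hREC hHST hHTR hSQ3 hPKW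
  have hHSN : Pool.Agent.H22.AN.T_HSN := Pool.Agent.H37.AN.pf_HSN hMUF hVOL hSUM hJST hHSJ hHS0 hPKW
  exact Pool.Agent.H60.AN.pf_ALL hHSN hSMI hDSH hEPC Pool.Agent.H87.AX.f_COV Pool.Agent.H87.SN.f_CL2

end Pool.Agent.H87.AN
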