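import Pool.Agent.H1.AN.REC
import Pool.Agent.H22.AN.TB2

/-!
# Row LOC of allh_modules (MP_2697e3_an): transport lemmas
-/

set_option autoImplicit false

namespace Pool.Agent.H87.AN

open MeasureTheory Metric Set Filter Topology Pool.Agent.H87.SN Pool.Agent.H87.SH Pool.Agent.H87.AX
open Pool.Agent.H22.AN Pool.Agent.H1.AN
open scoped ContDiff RealInnerProductSpace ENNReal

noncomputable section

variable {d m : ℕ}

theorem loc_norm_split (x : V d) : ‖x‖ ^ 2 = rho x ^ 2 + ‖zp x‖ ^ 2 := by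
  have h1 : rho x ^ 2 = x 0 ^ 2 + x 1 ^ 2 := by
    unfold rho
    rw [Real.sq_sqrt (by positivity)]
  rw [h1, EuclideanSpace.norm_sq_eq, EuclideanSpace.norm_sq_eq, Fin.sum_univ_succ,
    Fin.sum_univ_succ]
  simp only [Real.norm_eq_abs, sq_abs]
  show x 0 ^ 2 + (x 1 ^ 2 + ∑ i : Fin d, x i.succ.succ ^ 2) =
    x 0 ^ 2 + x 1 ^ 2 + ∑ i : Fin d, x i.succ.succ ^ 2
  rw [← add_assoc]

theorem loc_rle (x : V d) : rho x ≤ ‖x‖ := by
  have h1 := loc_norm_split x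
  have h2 : rho x ^ 2 ≤ ‖x‖ ^ 2 := by
    rw [h1]
    exact le_add_of_nonneg_right (sq_nonneg _)
  exact le_of_sq_le_sq h2 (norm_nonneg _)

theorem loc_zle (x : V d) : ‖zp x‖ ≤ ‖x‖ := by
  have h1 := loc_norm_split x
  have h2 : ‖zp x‖ ^ 2 ≤ ‖x‖ ^ 2 := by
    rw [h1]
    exact le_add_of_nonneg_left (sq_nonneg _)
  exact le_of_sq_le_sq h2 (norm_nonneg _)

theorem loc_nle {x : V d} {r : ℝ} (h : zp x = 0) (h2 : rho x ≤ r) : ‖x‖ ≤ r := by
  have h1 := loc_norm_split x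
  rw [h, norm_zero, zero_pow two_ne_zero, add_zero] at h1
  have h3 : 0 ≤ rho x := Real.sqrt_nonneg _
  exact le_of_sq_le_sq (by rw [h1]; exact pow_le_pow_left₀ h3 h2 2) (h3.trans h2)

/-- Transport of the integrals of the local inequality. -/
theorem loc_tr (hZMU : T_ZMU) (hMUF : T_MUF) (hBTM : T_BTM) {G : V d → V d →L[ℝ] E m}
    (hG : MemLp G 2 (volume.restrict (ball (0 : V d) 2))) (p : V d) {s : ℝ}
    (g : V d ≃ₗᵢ[ℝ] V d) (hs : 0 < s) (hpb : ball p (2 * s) ⊆ ball 0 2) (x₁ : V d)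
    (hx₁ : ‖x₁‖ ≤ 1 / 8) :
    (∀ y ∈ ball x₁ (1 / 16), ∀ t : ℝ, 0 < t → t ≤ 1 / 4 →
      th (zG p s g G) y t = th G (zm p s g y) (s * t)) ∧
    (∀ (ρ t e' : ℝ), 0 < t → t ≤ 1 / 8 → ρ ≤ 1 / 16 →
      ∫⁻ y in {y : V d | y ∈ ball x₁ ρ ∧ e' ≤ th (zG p s g G) y t}, bs (zG p s g G) y t =
      ENNReal.ofReal ((s ^ (d + 2))⁻¹) * ∫⁻ z in {z : V d | z ∈ ball (zm p s g x₁) (s * ρ) ∧
        e' ≤ th G z (s * t)}, bs G z (s * t)) ∧
    (∀ (ρ t e' w : ℝ), 0 < t → t ≤ 1 / 8 → ρ ≤ 1 / 16 →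
      ∫⁻ y in {y : V d | y ∈ ball x₁ ρ ∧ e' ≤ th (zG p s g G) y t ∧
          th (zG p s g G) y (t / 8) < w},
        ENNReal.ofReal (Real.sqrt (th (zG p s g G) y (t / 128))) =
      ENNReal.ofReal ((s ^ (d + 2))⁻¹) *
        ∫⁻ z in {z : V d | z ∈ ball (zm p s g x₁) (s * ρ) ∧ e' ≤ th G z (s * t) ∧
          th G z (s * t / 8) < w}, ENNReal.ofReal (Real.sqrt (th G z (s * t / 128)))) ∧
    (∀ (y : V d) (ρ : ℝ), zm p s g y ∈ ball (zm p s g x₁) (s * ρ) ↔ y ∈ ball x₁ ρ) := by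
  obtain ⟨-, -, -, -, h5, h6⟩ := hZMU d m G p s g hG hs hpb
  have hbx : ∀ y ∈ ball x₁ (1 / 16), ∀ t : ℝ, t ≤ 1 → ball y t ⊆ ball (0 : V d) 2 := by
    intro y hy t ht
    refine ball_subset_ball' ?_
    rw [mem_ball] at hy
    have h1 := dist_triangle y x₁ 0
    rw [dist_zero_right x₁] at h1
    linarith
  have hth : ∀ y ∈ ball x₁ (1 / 16), ∀ t : ℝ, 0 < t → t ≤ 1 / 4 →
      th (zG p s g G) y t = th G (zm p s g y) (s * t) :=
    fun y hy t ht ht' => h5 y t ht (hbx y hy t (by linarith))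
  have hbs : ∀ y ∈ ball x₁ (1 / 16), ∀ t : ℝ, 0 < t → t ≤ 1 / 8 →
      bs (zG p s g G) y t = bs G (zm p s g y) (s * t) :=
    fun y hy t ht ht' => (h6 y t ht (hbx y hy (8 * t) (by linarith))).2
  have hball' : ∀ (y : V d) (ρ : ℝ), zm p s g y ∈ ball (zm p s g x₁) (s * ρ) ↔ y ∈ ball x₁ ρ := by
    intro y ρ
    rw [mem_ball, mem_ball, dist_zm p hs g]
    exact mul_lt_mul_iff_right₀ hs
  refine ⟨hth, ?_, ?_, hball'⟩
  · intro ρ t e' ht ht' hρ
    have hT : MeasurableSet {z : V d | z ∈ ball (zm p s g x₁) (s * ρ) ∧ e' ≤ th G z (s * t)} :=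
      measurableSet_ball.inter (measurableSet_le measurable_const (th_meas hMUF hG _))
    rw [← transp hZMU hG p g hs hpb ((hBTM d m G hG (s * t) (by positivity)).2) hT]
    have hsub : ball x₁ ρ ⊆ ball x₁ (1 / 16) := ball_subset_ball hρ
    have hset : {y : V d | y ∈ ball x₁ ρ ∧ e' ≤ th (zG p s g G) y t} =
        zm p s g ⁻¹' {z : V d | z ∈ ball (zm p s g x₁) (s * ρ) ∧ e' ≤ th G z (s * t)} := by
      ext y
      constructor
      · rintro ⟨h1, h2⟩
        refine ⟨(hball' y ρ).2 h1, ?_⟩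
        rwa [← hth y (hsub h1) t ht (by linarith)]
      · rintro ⟨h1, h2⟩
        have h3 := (hball' y ρ).1 h1
        refine ⟨h3, ?_⟩
        rwa [hth y (hsub h3) t ht (by linarith)]
    rw [hset]
    refine setLIntegral_congr_fun (hT.preimage (zm_cont p s g).measurable) fun y hy => ?_
    exact hbs y (hsub ((hball' y ρ).1 hy.1)) t ht ht'
  · intro ρ t e' w ht ht' hρ
    have e8 : s * t / 8 = s * (t / 8) := by ring
    have e128 : s * t / 128 = s * (t / 128) := by ring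
    rw [e8, e128]
    have hT : MeasurableSet {z : V d | z ∈ ball (zm p s g x₁) (s * ρ) ∧ e' ≤ th G z (s * t) ∧
        th G z (s * (t / 8)) < w} :=
      measurableSet_ball.inter ((measurableSet_le measurable_const (th_meas hMUF hG _)).inter
        (measurableSet_lt (th_meas hMUF hG _) measurable_const))
    rw [← transp hZMU hG p g hs hpb (f := fun z => ENNReal.ofReal (Real.sqrt (th G z
      (s * (t / 128))))) ((th_meas hMUF hG _).sqrt.ennreal_ofReal) hT]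
    have hsub : ball x₁ ρ ⊆ ball x₁ (1 / 16) := ball_subset_ball hρ
    have hset : {y : V d | y ∈ ball x₁ ρ ∧ e' ≤ th (zG p s g G) y t ∧
          th (zG p s g G) y (t / 8) < w} =
        zm p s g ⁻¹' {z : V d | z ∈ ball (zm p s g x₁) (s * ρ) ∧ e' ≤ th G z (s * t) ∧
          th G z (s * (t / 8)) < w} := by
      ext y
      constructor
      · rintro ⟨h1, h2, h3⟩
        refine ⟨(hball' y ρ).2 h1, ?_, ?_⟩
        · rwa [← hth y (hsub h1) t ht (by linarith)]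
        · rwa [← hth y (hsub h1) (t / 8) (by positivity) (by linarith)]
      · rintro ⟨h1, h2, h3⟩
        have h4 := (hball' y ρ).1 h1
        refine ⟨h4, ?_, ?_⟩
        · rwa [hth y (hsub h4) t ht (by linarith)]
        · rwa [hth y (hsub h4) (t / 8) (by positivity) (by linarith)]
    rw [hset]
    refine setLIntegral_congr_fun (hT.preimage (zm_cont p s g).measurable) fun y hy => ?_
    show ENNReal.ofReal (Real.sqrt (th (zG p s g G) y (t / 128))) =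
      ENNReal.ofReal (Real.sqrt (th G (zm p s g y) (s * (t / 128))))
    rw [hth y (hsub ((hball' y ρ).1 hy.1)) (t / 128) (by positivity) (by linarith)]

/-- The factor of the zoom by one half. -/
theorem loc_fac {S A X c k₁ k₂ k₃ J₁ J₂ P D : ℝ≥0∞} (hP0 : P ≠ 0) (hP : P ≠ ⊤)
    (hA : A * S = P * D) {k₁' k₂' k₃' : ℝ≥0∞} (h1 : k₁ * S = P * k₁') (h2 : k₂ * S = P * k₂')
    (h3 : k₃ = P * k₃') (h : A * (S * X) ≤ c * (k₁ * (S * J₁) + k₂ * (S * J₂) + k₃)) :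
    D * X ≤ c * (k₁' * J₁ + k₂' * J₂ + k₃') := by
  have e1 : A * (S * X) = P * (D * X) := by
    rw [← mul_assoc, hA]
    ring
  have e2 : c * (k₁ * (S * J₁) + k₂ * (S * J₂) + k₃) = P * (c * (k₁' * J₁ + k₂' * J₂ + k₃')) := by
    rw [← mul_assoc k₁, ← mul_assoc k₂, h1, h2, h3]
    ring
  rw [e1, e2] at h
  exact (ENNReal.mul_le_mul_iff_right hP0 hP).1 h

end

end Pool.Agent.H87.AN
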